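import Pool.Agent.H586.AF.E

/-! # Project AF, task AH-L3: assembly of the limit (helper346; the bounds are those of helper179) -/

set_option autoImplicit false

open MeasureTheory Matrix Finset Filter Topology

namespace Pool.Agent.H346.AH

open Pool.Agent.H586.AF Pool.Agent.H586.AF.EE

theorem int_exp {k : ℝ} (hk : 0 < k) :
    Integrable (fun t : ℝ => Real.exp (-(k * t))) (volume.restrict (Set.Ioi (0 : ℝ))) := by
  have h := exp_neg_integrableOn_Ioi (0 : ℝ) hk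
  refine h.congr ?_
  filter_upwards with t
  rw [neg_mul]

/-- the near and the far part -/
theorem split (f : ℝ → ℝ → ℝ) (hf : Continuous (Function.uncurry f)) {M k : ℝ} (hk : 0 < k)
    (hM : ∀ t s, 0 ≤ t → 0 ≤ s → |f t s| ≤ M * Real.exp (-(k * (t + s)))) (R : ℝ) :
    ∫ t in Set.Ioi (0 : ℝ), ∫ s in Set.Ioi (0 : ℝ), f t s =
      (∫ t in Set.Ioi (0 : ℝ), ∫ s in Set.Ioi (0 : ℝ), if t + s ≤ R then f t s else 0) +
      ∫ t in Set.Ioi (0 : ℝ), ∫ s in Set.Ioi (0 : ℝ), if t + s ≤ R then 0 else f t s := by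
  obtain ⟨μ, hμ⟩ : ∃ μ : Measure ℝ, μ = volume.restrict (Set.Ioi (0 : ℝ)) := ⟨_, rfl⟩
  have hsf : SFinite μ := by rw [hμ]; infer_instance
  have hdom : Integrable (fun z : ℝ × ℝ => M * (Real.exp (-(k * z.1)) * Real.exp (-(k * z.2))))
      (μ.prod μ) := by
    rw [hμ]
    exact ((int_exp hk).mul_prod (int_exp hk)).const_mul M
  have hae : ∀ᵐ z ∂(μ.prod μ), 0 ≤ z.1 ∧ 0 ≤ z.2 := by
    have h1 : μ.prod μ = (volume : Measure (ℝ × ℝ)).restrict (Set.Ioi (0 : ℝ) ×ˢ Set.Ioi (0 : ℝ)) := by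
      rw [hμ, Measure.prod_restrict]
      rfl
    rw [h1]
    refine (ae_restrict_iff' (measurableSet_Ioi.prod measurableSet_Ioi)).2 ?_
    filter_upwards with z hz
    exact ⟨le_of_lt hz.1, le_of_lt hz.2⟩
  have hbd : ∀ᵐ z ∂(μ.prod μ), ‖Function.uncurry f z‖ ≤
      ‖M * (Real.exp (-(k * z.1)) * Real.exp (-(k * z.2)))‖ := by
    filter_upwards [hae] with z hz
    have h2 := hM z.1 z.2 hz.1 hz.2
    have h3 : Real.exp (-(k * (z.1 + z.2))) = Real.exp (-(k * z.1)) * Real.exp (-(k * z.2)) := by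
      rw [← Real.exp_add]
      congr 1
      ring
    rw [h3] at h2
    exact h2.trans (le_abs_self _)
  have hint : Integrable (Function.uncurry f) (μ.prod μ) :=
    hdom.mono hf.aestronglyMeasurable hbd
  have hset : MeasurableSet {z : ℝ × ℝ | z.1 + z.2 ≤ R} :=
    measurableSet_le (measurable_fst.add measurable_snd) measurable_const
  have hn : Integrable (fun z : ℝ × ℝ => if z.1 + z.2 ≤ R then f z.1 z.2 else 0) (μ.prod μ) := by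
    refine hint.mono (Measurable.ite hset hf.measurable measurable_const).aestronglyMeasurable ?_
    filter_upwards with z
    split_ifs
    · exact le_rfl
    · rw [norm_zero]; exact norm_nonneg _
  have hfar : Integrable (fun z : ℝ × ℝ => if z.1 + z.2 ≤ R then 0 else f z.1 z.2) (μ.prod μ) := by
    refine hint.mono (Measurable.ite hset measurable_const hf.measurable).aestronglyMeasurable ?_
    filter_upwards with z
    split_ifs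
    · rw [norm_zero]; exact norm_nonneg _
    · exact le_rfl
  rw [← hμ]
  have e1 := integral_prod _ hint
  have e2 := integral_prod _ hn
  have e3 := integral_prod _ hfar
  have e4 : ∫ z, Function.uncurry f z ∂(μ.prod μ) =
      ∫ z : ℝ × ℝ, ((if z.1 + z.2 ≤ R then f z.1 z.2 else 0) +
        (if z.1 + z.2 ≤ R then 0 else f z.1 z.2)) ∂(μ.prod μ) := by
    refine integral_congr_ae ?_
    filter_upwards with z
    show f z.1 z.2 = _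
    split_ifs
    · rw [add_zero]
    · rw [zero_add]
  rw [integral_add hn hfar, e1, e2, e3] at e4
  exact e4

theorem expbd (f : ℝ → ℝ → ℝ) (hf : Continuous (Function.uncurry f)) (L : ℕ) (hL : 2 ≤ L) (M1 : ℝ)
    (hfar : ∀ t s, 0 ≤ t → 0 ≤ s → (L : ℝ) ^ 2 ≤ t + s →
      |f t s| ≤ M1 * Real.exp (-((t + s) / (2 * (L : ℝ) ^ 2)))) :
    ∃ M : ℝ, ∀ t s, 0 ≤ t → 0 ≤ s → |f t s| ≤ M * Real.exp (-(1 / (2 * (L : ℝ) ^ 2) * (t + s))) := by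
  have hL0 : (0 : ℝ) < L := by
    have : 0 < L := by omega
    exact_mod_cast this
  have hL2 : (0 : ℝ) < (L : ℝ) ^ 2 := by positivity
  have hK : IsCompact (Set.Icc (0 : ℝ) ((L : ℝ) ^ 2) ×ˢ Set.Icc (0 : ℝ) ((L : ℝ) ^ 2)) :=
    isCompact_Icc.prod isCompact_Icc
  obtain ⟨M2, hM2⟩ := hK.exists_bound_of_continuousOn hf.continuousOn
  refine ⟨|M1| + |M2| * Real.exp 1, fun t s ht hs => ?_⟩
  have he : Real.exp (-(1 / (2 * (L : ℝ) ^ 2) * (t + s))) =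
      Real.exp (-((t + s) / (2 * (L : ℝ) ^ 2))) := by
    rw [one_div, div_eq_inv_mul]
  rw [he]
  have hp := Real.exp_pos (-((t + s) / (2 * (L : ℝ) ^ 2)))
  have h1 : 0 ≤ |M1| * Real.exp (-((t + s) / (2 * (L : ℝ) ^ 2))) :=
    mul_nonneg (abs_nonneg _) hp.le
  have h2 : 0 ≤ |M2| * Real.exp 1 * Real.exp (-((t + s) / (2 * (L : ℝ) ^ 2))) :=
    mul_nonneg (mul_nonneg (abs_nonneg _) (Real.exp_pos _).le) hp.le
  rw [add_mul]
  rcases le_or_gt ((L : ℝ) ^ 2) (t + s) with h | h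
  · have h3 := hfar t s ht hs h
    have h4 : M1 * Real.exp (-((t + s) / (2 * (L : ℝ) ^ 2))) ≤
        |M1| * Real.exp (-((t + s) / (2 * (L : ℝ) ^ 2))) :=
      mul_le_mul_of_nonneg_right (le_abs_self _) hp.le
    linarith
  · have h3 : |f t s| ≤ M2 := hM2 (t, s) ⟨⟨ht, by linarith⟩, ⟨hs, by linarith⟩⟩
    have h4 : 1 ≤ Real.exp 1 * Real.exp (-((t + s) / (2 * (L : ℝ) ^ 2))) := by
      rw [← Real.exp_add]
      refine Real.one_le_exp ?_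
      have h5 : (t + s) / (2 * (L : ℝ) ^ 2) ≤ 1 := by
        rw [div_le_one (by positivity)]
        linarith
      linarith
    have h6 : |M2| ≤ |M2| * (Real.exp 1 * Real.exp (-((t + s) / (2 * (L : ℝ) ^ 2)))) :=
      le_mul_of_one_le_right (abs_nonneg _) h4
    have h7 := le_abs_self M2
    rw [mul_assoc]
    rw [mul_assoc] at h2
    linarith

theorem uncurry_cont {a b : ℝ → ℝ → ℝ} {c d : ℝ → ℝ} (ha : Continuous (Function.uncurry a))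
    (hb : Continuous (Function.uncurry b)) (hc : Continuous c) (hd : Continuous d) :
    Continuous (Function.uncurry fun t s => a t s * b t s * c (t + s) * d (t + s)) := by
  have h1 : Continuous fun z : ℝ × ℝ => z.1 + z.2 := continuous_fst.add continuous_snd
  exact ((ha.mul hb).mul (hc.comp h1)).mul (hd.comp h1)

theorem prod4 {x y z w X Y Z W e : ℝ} (hx : |x| ≤ X) (hy : |y| ≤ Y) (hz : |z| ≤ Z)
    (hw : |w| ≤ W * e) : |x * y * z * w| ≤ X * Y * Z * W * e := by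
  rw [abs_mul, abs_mul, abs_mul, mul_assoc (X * Y * Z)]
  have hX := (abs_nonneg x).trans hx
  have hY := (abs_nonneg y).trans hy
  have hZ := (abs_nonneg z).trans hz
  exact mul_le_mul (mul_le_mul (mul_le_mul hx hy (abs_nonneg _) hX) hz (abs_nonneg _)
    (mul_nonneg hX hY)) hw (abs_nonneg _) (mul_nonneg (mul_nonneg hX hY) hZ)

theorem mag_bd (hH : S_H) {C0 : ℝ} {L : ℕ} (hL : 2 ≤ L) {a b : ℝ → ℝ → ℝ}
    {c d : ℝ → ℝ} (h : HI C0 L a b c d) (hC0 : 1 ≤ C0) :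
    ∃ M : ℝ, ∀ t s, 0 ≤ t → 0 ≤ s → |a t s * b t s * c (t + s) * d (t + s)| ≤
      M * Real.exp (-(1 / (2 * (L : ℝ) ^ 2) * (t + s))) := by
  obtain ⟨CH, hCH, -, hHb, -⟩ := hH
  have hL0 : (2 : ℝ) ≤ L := by exact_mod_cast hL
  refine expbd (fun t s => a t s * b t s * c (t + s) * d (t + s))
    (uncurry_cont h.ca h.cb h.tr.cc h.tr.cd) L hL
    (C0 * (L : ℝ) ^ 2 * (L * CH + C0 * 2 * 2) * C0 * C0) ?_
  intro t s ht hs hts
  refine prod4 (h.la t s ht hs hts) ?_ (h.tr.lc _ hts) (h.tr.ld _ hts)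
  have h1 := h.hb t s ht hs
  have h2 := (hHb (t + s) (add_nonneg ht hs)).2.2
  have h3 : ww (t + s) ≤ CH := by
    refine h2.2.1.trans (div_le_self (by linarith) (Real.one_le_rpow (by linarith) (by norm_num)))
  have hb : ∀ x : ℝ, 0 ≤ x → 1 / Real.sqrt (1 + x) + 1 / (L : ℝ) ≤ 2 := by
    intro x hx
    have h4 : 1 / Real.sqrt (1 + x) ≤ 1 := by
      rw [div_le_one (Real.sqrt_pos.2 (by linarith))]
      exact Real.one_le_sqrt.2 (by linarith)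
    have h5 : 1 / (L : ℝ) ≤ 1 := by
      rw [div_le_one (by linarith)]
      linarith
    linarith
  have hn : ∀ x : ℝ, 0 ≤ 1 / Real.sqrt (1 + x) + 1 / (L : ℝ) := fun x => by positivity
  have h6 : C0 * (1 / Real.sqrt (1 + t) + 1 / L) * (1 / Real.sqrt (1 + s) + 1 / L) ≤
      C0 * 2 * 2 := by
    refine mul_le_mul (mul_le_mul_of_nonneg_left (hb t ht) (by linarith)) (hb s hs) (hn s) ?_
    linarith
  have h7 : |(L : ℝ) * ww (t + s)| ≤ L * CH := by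
    rw [abs_of_nonneg (mul_nonneg (by linarith) h2.1)]
    exact mul_le_mul_of_nonneg_left h3 (by linarith)
  have h8 : |b t s| ≤ |b t s - L * ww (t + s)| + |(L : ℝ) * ww (t + s)| := by
    have h9 := abs_add_le (b t s - L * ww (t + s)) (L * ww (t + s))
    rwa [sub_add_cancel] at h9
  linarith

theorem spin_bd (hH : S_H) {C0 : ℝ} {L : ℕ} (hL : 2 ≤ L) {n1 n2 : ℝ → ℝ → ℝ}
    {c d : ℝ → ℝ} (h : HJ C0 L n1 n2 c d) :
    ∃ M : ℝ, ∀ t s, 0 ≤ t → 0 ≤ s → |n1 t s * n2 t s * c (t + s) * d (t + s)| ≤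
      M * Real.exp (-(1 / (2 * (L : ℝ) ^ 2) * (t + s))) := by
  obtain ⟨CH, hCH, -, hHb, -⟩ := hH
  have hL0 : (2 : ℝ) ≤ L := by exact_mod_cast hL
  refine expbd (fun t s => n1 t s * n2 t s * c (t + s) * d (t + s))
    (uncurry_cont h.c1 h.c2 h.tr.cc h.tr.cd) L hL
    ((L * CH + C0) * (L * CH + C0) * C0 * C0) ?_
  intro t s ht hs hts
  have h2 := (hHb (t + s) (add_nonneg ht hs)).2.2.2.2
  have h3 : gg (t + s) ≤ CH := by
    refine h2.2.trans (div_le_self (by linarith) (Real.one_le_sqrt.2 (by linarith)))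
  have h7 : |(L : ℝ) * gg (t + s)| ≤ L * CH := by
    rw [abs_of_nonneg (mul_nonneg (by linarith) h2.1)]
    exact mul_le_mul_of_nonneg_left h3 (by linarith)
  have key : ∀ x : ℝ, |x - L * gg (t + s)| ≤ C0 → |x| ≤ L * CH + C0 := by
    intro x hx
    have h9 := abs_add_le (x - L * gg (t + s)) (L * gg (t + s))
    rw [sub_add_cancel] at h9
    linarith
  exact prod4 (key _ (h.h1 t s ht hs)) (key _ (h.h2 t s ht hs)) (h.tr.lc _ hts) (h.tr.ld _ hts)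

/-- the magnetic part -/
theorem mag (hH : S_H) (hIN : S_IN) (hIF : S_IF) (hLG : S_LG) {C0 : ℝ} (hC0 : 1 ≤ C0)
    (a b : ℕ → ℝ → ℝ → ℝ) (c d : ℕ → ℝ → ℝ)
    (hHI : ∀ L : ℕ, 2 ≤ L → HI C0 L (a L) (b L) (c L) (d L))
    (hab : ∀ t s : ℝ, 0 < t → 0 < s →
      (∃ l, Tendsto (fun L : ℕ => a L ((L : ℝ) ^ 2 * t) ((L : ℝ) ^ 2 * s) / (L : ℝ) ^ 2) atTop (𝓝 l)) ∧
      ∃ l, Tendsto (fun L : ℕ => (L : ℝ) ^ 2 * b L ((L : ℝ) ^ 2 * t) ((L : ℝ) ^ 2 * s)) atTop (𝓝 l))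
    (hcd : ∀ t : ℝ, 0 < t → (∃ l, Tendsto (fun L : ℕ => c L ((L : ℝ) ^ 2 * t)) atTop (𝓝 l)) ∧
      ∃ l, Tendsto (fun L : ℕ => d L ((L : ℝ) ^ 2 * t)) atTop (𝓝 l)) :
    ∃ l, Tendsto (fun L : ℕ => ((1 / 2) * ∫ t in Set.Ioi (0 : ℝ), ∫ s in Set.Ioi (0 : ℝ),
      a L t s * b L t s * c L (t + s) * d L (t + s)) / (L : ℝ) ^ 4 -
      1 / (24 * Real.pi ^ 2) * Real.log L) atTop (𝓝 l) := by
  obtain ⟨C, hC⟩ := hIN C0 hC0
  have hF := hIF C0 hC0 a b c d hHI hab hcd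
  obtain ⟨⟨l1, hl1⟩, -, h3⟩ := hLG
  refine h3 _ (fun L ε => (1 / 2) * ((∫ t in Set.Ioi (0 : ℝ), ∫ s in Set.Ioi (0 : ℝ),
    if t + s ≤ ε * (L : ℝ) ^ 2 then 0 else a L t s * b L t s * c L (t + s) * d L (t + s)) /
      (L : ℝ) ^ 4)) (fun R => (1 / 2) * ∫ τ in (0 : ℝ)..R, τ ^ 3 / 6 * ww τ ^ 2 * hh τ ^ 2)
    (1 / (24 * Real.pi ^ 2)) C ⟨(1 / 2) * l1, ?_⟩ ?_ ?_
  · refine (hl1.const_mul (1 / 2)).congr fun R => ?_
    ring
  · intro ε hε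
    obtain ⟨l, hl⟩ := hF ε hε
    exact ⟨(1 / 2) * l, hl.const_mul (1 / 2)⟩
  · intro L hL ε hε hε1
    have hL0 : (2 : ℝ) ≤ L := by exact_mod_cast hL
    have hL4 : (0 : ℝ) < (L : ℝ) ^ 4 := by positivity
    have hI := hHI L hL
    obtain ⟨M, hM⟩ := mag_bd hH hL hI hC0
    have hs := split (fun t s => a L t s * b L t s * c L (t + s) * d L (t + s))
      (uncurry_cont hI.ca hI.cb hI.tr.cc hI.tr.cd) (k := 1 / (2 * (L : ℝ) ^ 2)) (by positivity) hM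
      (ε * (L : ℝ) ^ 2)
    have h1 := hC L hL (a L) (b L) (c L) (d L) hI ε hε hε1
    obtain ⟨tot, htot⟩ : ∃ tot, tot = ∫ t in Set.Ioi (0 : ℝ), ∫ s in Set.Ioi (0 : ℝ),
      a L t s * b L t s * c L (t + s) * d L (t + s) := ⟨_, rfl⟩
    obtain ⟨nr, hnr⟩ : ∃ nr, nr = ∫ t in Set.Ioi (0 : ℝ), ∫ s in Set.Ioi (0 : ℝ),
      if t + s ≤ ε * (L : ℝ) ^ 2 then a L t s * b L t s * c L (t + s) * d L (t + s) else 0 :=
      ⟨_, rfl⟩
    obtain ⟨fr, hfr⟩ : ∃ fr, fr = ∫ t in Set.Ioi (0 : ℝ), ∫ s in Set.Ioi (0 : ℝ),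
      if t + s ≤ ε * (L : ℝ) ^ 2 then 0 else a L t s * b L t s * c L (t + s) * d L (t + s) :=
      ⟨_, rfl⟩
    obtain ⟨Φ, hΦ⟩ : ∃ Φ, Φ = (1 / 2) * ∫ τ in (0 : ℝ)..(ε * (L : ℝ) ^ 2),
      τ ^ 3 / 6 * ww τ ^ 2 * hh τ ^ 2 := ⟨_, rfl⟩
    rw [← hnr, ← hΦ] at h1
    have hs' : tot = nr + fr := by rw [htot, hnr, hfr]; exact hs
    show |(1 / 2) * (∫ t in Set.Ioi (0 : ℝ), ∫ s in Set.Ioi (0 : ℝ),
      a L t s * b L t s * c L (t + s) * d L (t + s)) / (L : ℝ) ^ 4 - (1 / 2) *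
        ((∫ t in Set.Ioi (0 : ℝ), ∫ s in Set.Ioi (0 : ℝ), if t + s ≤ ε * (L : ℝ) ^ 2 then 0 else
          a L t s * b L t s * c L (t + s) * d L (t + s)) / (L : ℝ) ^ 4) -
          (1 / 2) * ∫ τ in (0 : ℝ)..(ε * (L : ℝ) ^ 2), τ ^ 3 / 6 * ww τ ^ 2 * hh τ ^ 2| ≤ _
    rw [← htot, ← hfr, ← hΦ, hs']
    have e1 : (1 / 2) * (nr + fr) / (L : ℝ) ^ 4 - (1 / 2) * (fr / (L : ℝ) ^ 4) - Φ =
        ((1 / 2) * nr - (L : ℝ) ^ 4 * Φ) / (L : ℝ) ^ 4 := by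
      field_simp
      ring
    rw [e1, abs_div, abs_of_pos hL4, div_le_iff₀ hL4]
    exact h1

/-- the spin part -/
theorem spin (hH : S_H) (hJN : S_JN) (hJF : S_JF) (hLG : S_LG) {C0 : ℝ} (hC0 : 1 ≤ C0)
    (n1 n2 : ℕ → ℝ → ℝ → ℝ) (c d : ℕ → ℝ → ℝ)
    (hHJ : ∀ L : ℕ, 2 ≤ L → HJ C0 L (n1 L) (n2 L) (c L) (d L))
    (hab : ∀ t s : ℝ, 0 < t → 0 < s →
      (∃ l, Tendsto (fun L : ℕ => n1 L ((L : ℝ) ^ 2 * t) ((L : ℝ) ^ 2 * s)) atTop (𝓝 l)) ∧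
      ∃ l, Tendsto (fun L : ℕ => n2 L ((L : ℝ) ^ 2 * t) ((L : ℝ) ^ 2 * s)) atTop (𝓝 l))
    (hcd : ∀ t : ℝ, 0 < t → (∃ l, Tendsto (fun L : ℕ => c L ((L : ℝ) ^ 2 * t)) atTop (𝓝 l)) ∧
      ∃ l, Tendsto (fun L : ℕ => d L ((L : ℝ) ^ 2 * t)) atTop (𝓝 l)) :
    ∃ l, Tendsto (fun L : ℕ => (∫ t in Set.Ioi (0 : ℝ), ∫ s in Set.Ioi (0 : ℝ),
      n1 L t s * n2 L t s * c L (t + s) * d L (t + s)) / (L : ℝ) ^ 4 -
      2 / Real.pi ^ 2 * Real.log L) atTop (𝓝 l) := by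
  obtain ⟨C, hC⟩ := hJN C0 hC0
  have hF := hJF C0 hC0 n1 n2 c d hHJ hab hcd
  obtain ⟨-, ⟨l1, hl1⟩, h3⟩ := hLG
  refine h3 _ (fun L ε => (∫ t in Set.Ioi (0 : ℝ), ∫ s in Set.Ioi (0 : ℝ),
    if t + s ≤ ε * (L : ℝ) ^ 2 then 0 else n1 L t s * n2 L t s * c L (t + s) * d L (t + s)) /
      (L : ℝ) ^ 4) (fun R => ∫ τ in (0 : ℝ)..R, τ * gg τ ^ 2 * hh τ ^ 2)
    (2 / Real.pi ^ 2) C ⟨l1, ?_⟩ hF ?_
  · refine hl1.congr fun R => ?_
    ring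
  · intro L hL ε hε hε1
    have hL0 : (2 : ℝ) ≤ L := by exact_mod_cast hL
    have hL4 : (0 : ℝ) < (L : ℝ) ^ 4 := by positivity
    have hI := hHJ L hL
    obtain ⟨M, hM⟩ := spin_bd hH hL hI
    have hs := split (fun t s => n1 L t s * n2 L t s * c L (t + s) * d L (t + s))
      (uncurry_cont hI.c1 hI.c2 hI.tr.cc hI.tr.cd) (k := 1 / (2 * (L : ℝ) ^ 2)) (by positivity) hM
      (ε * (L : ℝ) ^ 2)
    have h1 := hC L hL (n1 L) (n2 L) (c L) (d L) hI ε hε hε1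
    obtain ⟨tot, htot⟩ : ∃ tot, tot = ∫ t in Set.Ioi (0 : ℝ), ∫ s in Set.Ioi (0 : ℝ),
      n1 L t s * n2 L t s * c L (t + s) * d L (t + s) := ⟨_, rfl⟩
    obtain ⟨nr, hnr⟩ : ∃ nr, nr = ∫ t in Set.Ioi (0 : ℝ), ∫ s in Set.Ioi (0 : ℝ),
      if t + s ≤ ε * (L : ℝ) ^ 2 then n1 L t s * n2 L t s * c L (t + s) * d L (t + s) else 0 :=
      ⟨_, rfl⟩
    obtain ⟨fr, hfr⟩ : ∃ fr, fr = ∫ t in Set.Ioi (0 : ℝ), ∫ s in Set.Ioi (0 : ℝ),
      if t + s ≤ ε * (L : ℝ) ^ 2 then 0 else n1 L t s * n2 L t s * c L (t + s) * d L (t + s) :=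
      ⟨_, rfl⟩
    obtain ⟨Φ, hΦ⟩ : ∃ Φ, Φ = ∫ τ in (0 : ℝ)..(ε * (L : ℝ) ^ 2),
      τ * gg τ ^ 2 * hh τ ^ 2 := ⟨_, rfl⟩
    rw [← hnr, ← hΦ] at h1
    have hs' : tot = nr + fr := by rw [htot, hnr, hfr]; exact hs
    show |(∫ t in Set.Ioi (0 : ℝ), ∫ s in Set.Ioi (0 : ℝ),
      n1 L t s * n2 L t s * c L (t + s) * d L (t + s)) / (L : ℝ) ^ 4 -
        ((∫ t in Set.Ioi (0 : ℝ), ∫ s in Set.Ioi (0 : ℝ), if t + s ≤ ε * (L : ℝ) ^ 2 then 0 else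
          n1 L t s * n2 L t s * c L (t + s) * d L (t + s)) / (L : ℝ) ^ 4) -
          ∫ τ in (0 : ℝ)..(ε * (L : ℝ) ^ 2), τ * gg τ ^ 2 * hh τ ^ 2| ≤ _
    rw [← htot, ← hfr, ← hΦ, hs']
    have e1 : (nr + fr) / (L : ℝ) ^ 4 - fr / (L : ℝ) ^ 4 - Φ =
        (nr - (L : ℝ) ^ 4 * Φ) / (L : ℝ) ^ 4 := by
      field_simp
      ring
    rw [e1, abs_div, abs_of_pos hL4, div_le_iff₀ hL4]
    exact h1

/-- the hypotheses hold for the one dimensional functions (as in the proof of `S_L2` by helper179) -/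
theorem hyps (hA : S_A) (hB : S_B) (hC : S_C) (hN : S_N) (hCT : S_CT) :
    ∃ C0 : ℝ, 1 ≤ C0 ∧ ∀ L : ℕ, 2 ≤ L →
      HI C0 L (aa (lNN L)) (bb (lDD L)) (cc (lDD L)) (cc (lDN L)) ∧
      HI C0 L (aa (lDD L)) (bb (lNN L)) (cc (lDD L)) (cc (lDN L)) ∧
      HI C0 L (aa (lDD L)) (bb (lDD L)) (cc (lNN L)) (cc (lDN L)) ∧
      HI C0 L (aa (lDD L)) (bb (lDD L)) (cc (lDD L)) (cc (lND L)) ∧
      HI C0 L (aa (lDD L)) (bb (lDD L)) (cc (lDD L)) (cc (lDN L)) ∧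
      HJ C0 L (nn L) (fun t s => nn L s t) (cc (lDD L)) (cc (lDN L)) ∧
      Tr2 C0 L (cc (lDD L)) (cc (lDN L)) ∧ Tr2 C0 L (cc (lNN L)) (cc (lDN L)) := by
  obtain ⟨CA, hCA, hA⟩ := hA
  obtain ⟨CB, hCB, hB⟩ := hB
  obtain ⟨CC, hCC, hC⟩ := hC
  obtain ⟨CN, hCN, hN⟩ := hN
  obtain ⟨C0, hC0e⟩ : ∃ C0, C0 = CA + CB + CC + CN := ⟨_, rfl⟩
  have hC0 : 1 ≤ C0 := by linarith
  have lA : CA ≤ C0 := by linarith
  have lB : CB ≤ C0 := by linarith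
  have lC : CC ≤ C0 := by linarith
  have lN : CN ≤ C0 := by linarith
  refine ⟨C0, hC0, fun L hL => ?_⟩
  have hL0 : (0 : ℝ) < L := by
    have : 0 < L := by omega
    exact_mod_cast this
  -- traces
  have cDD : Continuous (cc (lDD L)) := (hCT (lDD L)).1
  have cNN : Continuous (cc (lNN L)) := (hCT (lNN L)).1
  have cDN : Continuous (cc (lDN L)) := (hCT (lDN L)).1
  have cND : Continuous (cc (lND L)) := (hCT (lND L)).1
  have bDD : ∀ t, 0 ≤ t → |cc (lDD L) t - L * hh t| ≤ C0 := fun t ht =>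
    ((hC L hL t ht).1.2).trans lC
  have bNN : ∀ t, 0 ≤ t → |cc (lNN L) t - L * hh t| ≤ C0 := fun t ht =>
    ((hC L hL t ht).2.1.2).trans lC
  have bDN : ∀ t, 0 ≤ t → |cc (lDN L) t - L * hh t| ≤ C0 := fun t ht =>
    ((hC L hL t ht).2.2.1.2).trans lC
  have bND : ∀ t, 0 ≤ t → |cc (lND L) t - L * hh t| ≤ C0 := fun t ht =>
    ((hC L hL t ht).2.2.2.1.2).trans lC
  have tpos : ∀ t : ℝ, (L : ℝ) ^ 2 ≤ t → 0 ≤ t := fun t ht => le_trans (by positivity) ht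
  have uDD : ∀ t, (L : ℝ) ^ 2 ≤ t → |cc (lDD L) t| ≤ C0 := fun t ht => by
    have h := hC L hL t (tpos t ht)
    rw [abs_of_nonneg h.1.1]
    exact (h.2.2.2.2 ht).1.trans lC
  have uNN : ∀ t, (L : ℝ) ^ 2 ≤ t → |cc (lNN L) t| ≤ C0 := fun t ht => by
    have h := hC L hL t (tpos t ht)
    rw [abs_of_nonneg h.2.1.1]
    exact (h.2.2.2.2 ht).2.1.trans lC
  have uDN : ∀ t, (L : ℝ) ^ 2 ≤ t →
      |cc (lDN L) t| ≤ C0 * Real.exp (-(t / (2 * (L : ℝ) ^ 2))) := fun t ht => by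
    have h := hC L hL t (tpos t ht)
    rw [abs_of_nonneg h.2.2.1.1]
    exact (h.2.2.2.2 ht).2.2.1.trans (mul_le_mul_of_nonneg_right lC (Real.exp_pos _).le)
  have uND : ∀ t, (L : ℝ) ^ 2 ≤ t →
      |cc (lND L) t| ≤ C0 * Real.exp (-(t / (2 * (L : ℝ) ^ 2))) := fun t ht => by
    have h := hC L hL t (tpos t ht)
    rw [abs_of_nonneg h.2.2.2.1.1]
    exact (h.2.2.2.2 ht).2.2.2.trans (mul_le_mul_of_nonneg_right lC (Real.exp_pos _).le)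
  have tDDDN : Tr2 C0 L (cc (lDD L)) (cc (lDN L)) := ⟨cDD, cDN, bDD, bDN, uDD, uDN⟩
  have tNNDN : Tr2 C0 L (cc (lNN L)) (cc (lDN L)) := ⟨cNN, cDN, bNN, bDN, uNN, uDN⟩
  have tDDND : Tr2 C0 L (cc (lDD L)) (cc (lND L)) := ⟨cDD, cND, bDD, bND, uDD, uND⟩
  -- the function `aa`
  have aDD : ∀ t s, 0 ≤ t → 0 ≤ s →
      |aa (lDD L) t s - L * (t * s * ww (t + s))| ≤ C0 * Real.sqrt (t * s) := fun t s ht hs =>
    (hA L hL t s ht hs).1.trans (mul_le_mul_of_nonneg_right lA (Real.sqrt_nonneg _))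
  have aNN : ∀ t s, 0 ≤ t → 0 ≤ s →
      |aa (lNN L) t s - L * (t * s * ww (t + s))| ≤ C0 * Real.sqrt (t * s) := fun t s ht hs =>
    (hA L hL t s ht hs).2.1.trans (mul_le_mul_of_nonneg_right lA (Real.sqrt_nonneg _))
  have aDD2 : ∀ t s, 0 ≤ t → 0 ≤ s → (L : ℝ) ^ 2 ≤ t + s →
      |aa (lDD L) t s| ≤ C0 * (L : ℝ) ^ 2 := fun t s ht hs hts => by
    have h := (hA L hL t s ht hs).2.2.1
    rw [abs_of_nonneg h.1]
    refine h.2.trans ?_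
    rw [mul_comm C0]
    exact mul_le_mul_of_nonneg_left ((le_abs_self _).trans (uDD _ hts)) (by positivity)
  have aNN2 : ∀ t s, 0 ≤ t → 0 ≤ s → (L : ℝ) ^ 2 ≤ t + s →
      |aa (lNN L) t s| ≤ C0 * (L : ℝ) ^ 2 := fun t s ht hs hts => by
    have h := (hA L hL t s ht hs).2.2.2
    rw [abs_of_nonneg h.1]
    refine h.2.trans ?_
    rw [mul_comm C0]
    exact mul_le_mul_of_nonneg_left ((le_abs_self _).trans (uNN _ hts)) (by positivity)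
  -- the function `bb`
  have hpos : ∀ t s : ℝ, 0 ≤ (1 / Real.sqrt (1 + t) + 1 / (L : ℝ)) *
      (1 / Real.sqrt (1 + s) + 1 / (L : ℝ)) := fun t s => by positivity
  have bbDD : ∀ t s, 0 ≤ t → 0 ≤ s → |bb (lDD L) t s - L * ww (t + s)| ≤
      C0 * (1 / Real.sqrt (1 + t) + 1 / L) * (1 / Real.sqrt (1 + s) + 1 / L) := fun t s ht hs => by
    refine (hB L hL t s ht hs).1.trans ?_
    rw [mul_assoc, mul_assoc]
    exact mul_le_mul_of_nonneg_right lB (hpos t s)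
  have bbNN : ∀ t s, 0 ≤ t → 0 ≤ s → |bb (lNN L) t s - L * ww (t + s)| ≤
      C0 * (1 / Real.sqrt (1 + t) + 1 / L) * (1 / Real.sqrt (1 + s) + 1 / L) := fun t s ht hs => by
    refine (hB L hL t s ht hs).2.trans ?_
    rw [mul_assoc, mul_assoc]
    exact mul_le_mul_of_nonneg_right lB (hpos t s)
  -- the function `nn`
  have nc : Continuous (Function.uncurry (nn L)) := (hCT (lDD L)).2.2.2 L
  have nb : ∀ t s, 0 ≤ t → 0 ≤ s → |nn L t s - L * gg (t + s)| ≤ C0 := fun t s ht hs =>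
    (hN L hL t s ht hs).trans lN
  have nb2 : ∀ t s, 0 ≤ t → 0 ≤ s → |nn L s t - L * gg (t + s)| ≤ C0 := fun t s ht hs => by
    rw [add_comm t s]
    exact nb s t hs ht
  have nc2 : Continuous (Function.uncurry fun t s => nn L s t) := by
    have h := nc.comp continuous_swap
    exact h
  exact ⟨⟨(hCT (lNN L)).2.1, (hCT (lDD L)).2.2.1, tDDDN, aNN, aNN2, bbDD⟩,
    ⟨(hCT (lDD L)).2.1, (hCT (lNN L)).2.2.1, tDDDN, aDD, aDD2, bbNN⟩,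
    ⟨(hCT (lDD L)).2.1, (hCT (lDD L)).2.2.1, tNNDN, aDD, aDD2, bbDD⟩,
    ⟨(hCT (lDD L)).2.1, (hCT (lDD L)).2.2.1, tDDND, aDD, aDD2, bbDD⟩,
    ⟨(hCT (lDD L)).2.1, (hCT (lDD L)).2.2.1, tDDDN, aDD, aDD2, bbDD⟩,
    ⟨nc, nc2, tDDDN, nb, nb2⟩, tDDDN, tNNDN⟩

theorem tl3 (hIN : S_IN) (hIF : S_IF) (hJN : S_JN) (hJF : S_JF) (hLG : S_LG) (hK2 : S_K2)
    (hSC : S_SC) (hSA : S_SA) (hSB : S_SB) (hSN : S_SN) (hH : S_H) (hA : S_A) (hB : S_B)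
    (hC : S_C) (hN : S_N) (hCT : S_CT) : S_L3 := by
  obtain ⟨C0, hC0, hyp⟩ := hyps hA hB hC hN hCT
  -- limits of the one dimensional functions
  have sDD : ∀ t : ℝ, 0 < t → ∃ l, Tendsto (fun L : ℕ => cc (lDD L) ((L : ℝ) ^ 2 * t)) atTop (𝓝 l) :=
    fun t ht => (hSC t ht).1
  have sNN : ∀ t : ℝ, 0 < t → ∃ l, Tendsto (fun L : ℕ => cc (lNN L) ((L : ℝ) ^ 2 * t)) atTop (𝓝 l) :=
    fun t ht => (hSC t ht).2.1
  have sDN : ∀ t : ℝ, 0 < t → ∃ l, Tendsto (fun L : ℕ => cc (lDN L) ((L : ℝ) ^ 2 * t)) atTop (𝓝 l) :=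
    fun t ht => (hSC t ht).2.2.1
  have sND : ∀ t : ℝ, 0 < t → ∃ l, Tendsto (fun L : ℕ => cc (lND L) ((L : ℝ) ^ 2 * t)) atTop (𝓝 l) :=
    fun t ht => (hSC t ht).2.2.2
  obtain ⟨l1, h1⟩ := mag hH hIN hIF hLG hC0 (fun L => aa (lNN L)) (fun L => bb (lDD L))
    (fun L => cc (lDD L)) (fun L => cc (lDN L)) (fun L hL => (hyp L hL).1)
    (fun t s ht hs => ⟨(hSA t s ht hs).2, (hSB t s ht hs).1⟩) (fun t ht => ⟨sDD t ht, sDN t ht⟩)
  obtain ⟨l2, h2⟩ := mag hH hIN hIF hLG hC0 (fun L => aa (lDD L)) (fun L => bb (lNN L))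
    (fun L => cc (lDD L)) (fun L => cc (lDN L)) (fun L hL => (hyp L hL).2.1)
    (fun t s ht hs => ⟨(hSA t s ht hs).1, (hSB t s ht hs).2⟩) (fun t ht => ⟨sDD t ht, sDN t ht⟩)
  obtain ⟨l3, h3⟩ := mag hH hIN hIF hLG hC0 (fun L => aa (lDD L)) (fun L => bb (lDD L))
    (fun L => cc (lNN L)) (fun L => cc (lDN L)) (fun L hL => (hyp L hL).2.2.1)
    (fun t s ht hs => ⟨(hSA t s ht hs).1, (hSB t s ht hs).1⟩) (fun t ht => ⟨sNN t ht, sDN t ht⟩)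
  obtain ⟨l4, h4⟩ := mag hH hIN hIF hLG hC0 (fun L => aa (lDD L)) (fun L => bb (lDD L))
    (fun L => cc (lDD L)) (fun L => cc (lND L)) (fun L hL => (hyp L hL).2.2.2.1)
    (fun t s ht hs => ⟨(hSA t s ht hs).1, (hSB t s ht hs).1⟩) (fun t ht => ⟨sDD t ht, sND t ht⟩)
  obtain ⟨l5, h5⟩ := mag hH hIN hIF hLG hC0 (fun L => aa (lDD L)) (fun L => bb (lDD L))
    (fun L => cc (lDD L)) (fun L => cc (lDN L)) (fun L hL => (hyp L hL).2.2.2.2.1)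
    (fun t s ht hs => ⟨(hSA t s ht hs).1, (hSB t s ht hs).1⟩) (fun t ht => ⟨sDD t ht, sDN t ht⟩)
  obtain ⟨lB, hBU⟩ := spin hH hJN hJF hLG hC0 (fun L => nn L) (fun L t s => nn L s t)
    (fun L => cc (lDD L)) (fun L => cc (lDN L)) (fun L hL => (hyp L hL).2.2.2.2.2.1)
    (fun t s ht hs => ⟨hSN t s ht hs, hSN s t hs ht⟩) (fun t ht => ⟨sDD t ht, sDN t ht⟩)
  have k1 := hK2 C0 hC0 (fun L => cc (lNN L)) (fun L => cc (lDD L)) (fun L => cc (lDD L))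
    (fun L => cc (lDN L)) (fun L hL => ⟨(hyp L hL).2.2.2.2.2.2.2, (hyp L hL).2.2.2.2.2.2.1,
      (hyp L hL).2.2.2.2.2.2.1⟩)
  have k2 := hK2 C0 hC0 (fun L => cc (lDD L)) (fun L => cc (lNN L)) (fun L => cc (lDD L))
    (fun L => cc (lDN L)) (fun L hL => ⟨(hyp L hL).2.2.2.2.2.2.1, (hyp L hL).2.2.2.2.2.2.2,
      (hyp L hL).2.2.2.2.2.2.1⟩)
  refine ⟨l1 + l2 + l3 + l4 - 2 * l5 - (1 / 2) * (∫ t in Set.Ioi (0 : ℝ), hh t ^ 4) -
    (1 / 2) * (∫ t in Set.Ioi (0 : ℝ), hh t ^ 4) - (1 / 2) * lB, ?_⟩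
  have hsum := ((((((h1.add h2).add h3).add h4).sub (h5.const_mul 2)).sub
    (k1.const_mul (1 / 2))).sub (k2.const_mul (1 / 2))).sub (hBU.const_mul (1 / 2))
  refine hsum.congr fun L => ?_
  have hpi : Real.pi ≠ 0 := Real.pi_ne_zero
  have e1 : ∀ x y z : ℝ, 11 / (12 * Real.pi ^ 2) * x = 11 * (1 / Real.pi ^ 2 * x) / 12 := by
    intro x _ _
    rw [div_eq_mul_inv, mul_inv, one_div]
    ring
  have e2 : ∀ x : ℝ, 1 / (24 * Real.pi ^ 2) * x = (1 / Real.pi ^ 2 * x) / 24 := by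
    intro x
    rw [one_div, mul_inv, one_div]
    ring
  have e3 : ∀ x : ℝ, 2 / Real.pi ^ 2 * x = 2 * (1 / Real.pi ^ 2 * x) := by
    intro x
    rw [div_eq_mul_inv, one_div]
    ring
  unfold LL RI BU
  rw [e1 _ 0 0]
  simp only [e2, e3]
  ring

end Pool.Agent.H346.AH
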